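import Pool.Agent.Run7.h20.MK.Gen
import Pool.Agent.Run7.h27.MK.Pairs
import Pool.Agent.Run7.h794.MK.All

/-!
# Prime pairs in all progressions, for all the differences near almost all members of sparse sets in short intervals

Let `S` be an arbitrary finite set of natural numbers inside of an interval of a length `H ≥ X ^ (1/3) log ^ W X` whose additive
energy of some order `r` is nearly minimal, `H * energy r S ≤ log ^ E X * |S| ^ (2 r)`. (For instance: all sets with at least
`H / log ^ E X` members, Sidon sets with `√H / log ^ (E / 2) X` members.) For almost all members `s` the asymptotic formula for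
prime pairs holds with a power of the logarithm, for ALL the even differences `d` between `s` and `s + log ^ A X` and in all
progressions of a modulus `q ≤ log ^ B X`.

Definition used (in `Pool.Agent.H560R3.GB`): `C₂`: the twin prime constant `∏_{p > 2} (1 - 1 / (p - 1) ^ 2)` (the infimum
of the partial products).
-/

set_option autoImplicit false

namespace Pool.Agent.Results.MP_678834_nt.EnergyPairs

open Finset
open Pool.Agent.H560R3.GB (C₂)

/-- The additive energy of order `r` of `S`: the number of pairs `v, w` of vectors of `r` members of `S` with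
`v_1 + ... + v_r = w_1 + ... + w_r`. -/
def energy (r : ℕ) (S : Finset ℕ) : ℕ :=
  (((Fintype.piFinset fun _ : Fin r => S) ×ˢ (Fintype.piFinset fun _ : Fin r => S)).filter
    (fun q => ∑ i, q.1 i = ∑ i, q.2 i)).card

/-- The singular series `2 C₂ ∏_{p ∣ d, p > 2} (p - 1) / (p - 2)`. -/
noncomputable def sing (d : ℕ) : ℝ :=
  2 * C₂ * ∏ p ∈ d.primeFactors.filter (fun p => 2 < p), ((p : ℝ) - 1) / ((p : ℝ) - 2)

open Classical in
/-- The number of the primes `p ≡ b (mod q)` for which `p + d` is a prime `≤ x`. -/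
noncomputable def pairs (x : ℝ) (d b q : ℕ) : ℕ :=
  ((range (⌊x⌋₊ + 1)).filter (fun p => p.Prime ∧ (p + d).Prime ∧ (p : ℝ) + d ≤ x ∧ p ≡ b [MOD q])).card

/-- The number of the classes `α` modulo `q` such that `α` and `α + d` are coprime to `q`. -/
def classes (q d : ℕ) : ℕ := ((range q).filter (fun α => Nat.Coprime α q ∧ Nat.Coprime (α + d) q)).card

/-- For all even `d` with `s ≤ d ≤ s + log ^ A X`, `d ≠ 0`, all `q ≤ log ^ B X`, all `b` such that `b` and `b + d` are coprime to
`q`, and all `2 ≤ x ≤ X` the number of the pairs `p, p + d ≤ x` of primes with `p ≡ b (mod q)` is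
`sing d / classes q d * ∫_2^x dt / log ^ 2 t` with an error of at most `X / log ^ C X`. -/
def Good (A B C X s : ℕ) : Prop :=
  ∀ d q b : ℕ, s ≤ d → (d : ℝ) ≤ s + Real.log X ^ A → 1 ≤ q → (q : ℝ) ≤ Real.log X ^ B → Nat.Coprime b q →
    Nat.Coprime (b + d) q → 2 ∣ d → d ≠ 0 → ∀ x : ℝ, 2 ≤ x → x ≤ X →
    |(pairs x d b q : ℝ) - sing d / classes q d * ∫ t in (2 : ℝ)..x, 1 / Real.log t ^ 2| ≤ X / Real.log X ^ C

open Classical in
/-- For all `r`, `E`, `A`, `B`, `C`, `U` there are `W` and `X₀` such that for all `X ≥ X₀` the following holds. Let `S` be a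
nonempty finite set of natural numbers inside of an interval `[a, a + H]` with `H ≥ X ^ (1/3) log ^ W X` and
`a + H ≤ X / log ^ (C + 5) X`, whose additive energy of order `r` is at most `log ^ E X * |S| ^ (2 r) / H`. Then all but at most
`|S| / log ^ U X` of the members `s` of `S` are good: the formula holds for ALL even `d` between `s` and `s + log ^ A X`, in all
the progressions of all the moduli `q ≤ log ^ B X` and for all `x ≤ X`. -/
theorem result (r E A B C U : ℕ) : ∃ W X₀ : ℕ, ∀ X : ℕ, X₀ ≤ X → ∀ S : Finset ℕ, S.Nonempty → ∀ a H : ℕ,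
    (X : ℝ) ^ (1 / 3 : ℝ) * Real.log X ^ W ≤ H → ((a + H : ℕ) : ℝ) ≤ X / Real.log X ^ (C + 5) →
    (∀ s ∈ S, a ≤ s ∧ s ≤ a + H) → (H : ℝ) * energy r S ≤ Real.log X ^ E * (S.card : ℝ) ^ (2 * r) →
    ((S.filter fun s => ¬ Good A B C X s).card : ℝ) ≤ S.card / Real.log X ^ U := by
  obtain ⟨R, hR⟩ := Pool.Agent.Run7.h27.MK.pairs_gen 1 0 A B C U
  obtain ⟨W, hW⟩ := Pool.Agent.Run7.h20.MK.zlaw_ene Pool.Agent.Run7.h794.MK.law_all r E 1 1 one_ne_zero (0 + 1) R
  obtain ⟨X₁, h1⟩ := hR _ hW
  obtain ⟨n₁, hn₁⟩ := Filter.eventually_atTop.1 ((tendsto_natCast_atTop_atTop (R := ℝ)).eventually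
    (Real.tendsto_log_atTop.eventually_ge_atTop (1 : ℝ)))
  refine ⟨W, X₁ + n₁ + 3, fun X hX S hS a H hH haH hSa hen => ?_⟩
  have hL1 := hn₁ X (by omega)
  have haN : a + H ≤ 1 * X := by
    rw [one_mul]
    have h2 : ((a + H : ℕ) : ℝ) ≤ X := by
      refine haH.trans (div_le_self (Nat.cast_nonneg _) ?_)
      exact one_le_pow₀ (by simpa using hL1)
    exact_mod_cast h2
  have h3 := h1 X (by omega) S (fun s => s) S (fun _ => 1 / (S.card : ℝ))
    (Pool.Agent.Run7.h20.MK.Ene_unif r E W 1 X S hS a H hH haN hSa hen) (Pool.Agent.Run7.h20.MK.Rep_unif S hS) 0 (by simp)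
  refine le_trans ?_ h3
  apply Nat.cast_le.2
  apply card_le_card
  intro s hs
  rw [mem_filter] at hs ⊢
  refine ⟨hs.1, fun hcon => hs.2 ?_⟩
  have h4 := hcon s (by simp) (le_trans (by exact_mod_cast (hSa s hs.1).2) haH)
  intro d q b hd1 hd2 hq1 hq2 hb1 hb2 h2d hd0 x hx hxX
  obtain ⟨δ, rfl⟩ := Nat.exists_eq_add_of_le hd1
  exact h4 δ q b (by push_cast at hd2; linarith) hq1 hq2 hb1 hb2 h2d hd0 x hx hxX

end Pool.Agent.Results.MP_678834_nt.EnergyPairs
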