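import Pool.Agent.Run7.h931.MK.Fin

/-!
# Prime pairs whose differences run through a sparse set of length `N^(1/3) log^C N`, translated by any integer

From Mathlib: `ZMod.stdAddChar` is the additive character `j ↦ exp (2 π i j / q)` of the integers modulo `q`, and `ZMod.val`
is the least residue in `[0, q)`.

Method: the asymptotic formula for primes in almost all intervals of the length `N^(1/3) log^C N` with characters of the
conductor and Fourier variables of polylogarithmic size (projects CR and MK of this run; Heath-Brown's identity, mean values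
of Dirichlet polynomials, Ingham's and Huxley's estimates without loss), Gallagher's lemma and Parseval's identity modulo
`M` on the major arcs, and trivial estimates elsewhere, since the Fourier coefficients of the sparse set are small there.
-/

set_option autoImplicit false

namespace Pool.Agent.Results.MP_678834_nt.EveryShift

open Finset

/-- The Fourier coefficients of the residues `y i`, `i ∈ s`, modulo `q` at the nonzero frequencies are at most
`η` times the number of the residues: `|∑ i ∈ s, e(k y_i / q)| ≤ η |s|` for all `k ≠ 0` modulo `q`. -/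
def Flat {ι : Type} (q : ℕ) [NeZero q] (η : ℝ) (s : Finset ι) (y : ι → ZMod q) : Prop :=
  ∀ k : ZMod q, k ≠ 0 → ‖∑ i ∈ s, (ZMod.stdAddChar (k * y i) : ℂ)‖ ≤ η * s.card

open Classical in
/-- The number of the `i ∈ s` for which `n + h + κ y_i` is a prime (`0 ≤ y_i < q` the least residues). -/
noncomputable def W {ι : Type} {q : ℕ} (s : Finset ι) (y : ι → ZMod q) (κ h : ℤ) (n : ℕ) : ℕ :=
  (s.filter fun i => (n + h + κ * ((y i).val : ℤ)).toNat.Prime).card

/-- Let `T`, `U` and `ε > 0` be given. There are numbers `V`, `C`, `D`, `K` such that for all large `N` the following holds.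

Let `q` be an integer with `N^(1/3) log^C N ≤ q ≤ N / log^D N` and let `y i`, `i ∈ s`, be a nonempty finite family of residues modulo
`q` whose nonzero Fourier coefficients are at most `|s| / log^V N`. Let `κ ≠ 0` and `h` be integers with `|κ| ≤ log^T N`,
`|h| ≤ N log^T N`, and `k = |κ|`.

**(1)** (every `h`) For EVERY set `B` of at least `N / log^T N` integers `1 ≤ n ≤ N` with `n + h` positive and prime to
`κ`, the number of the pairs `(n, i)`, `n ∈ B`, `i ∈ s`, for which `n + h + κ y_i` is prime is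
`(1 ± ε) k/φ(k) |B| |s| / log N`; for instance `B` can be any set of at least `N / log^T N` primes.

**(2)** For all positive integers `n ≤ N` with at most `N / log^U N` exceptions the number of the `i ∈ s` for which `n + h + κ y_i`
is prime is `(1 ± ε) k/φ(k) |s| / log N`, if `n + h` is positive and prime to `κ`; in particular this
holds for all but few primes `n`.

**(3)** (`κ = 1`, all primes) For every `h ≥ 0` the number of the pairs of a prime `p ≤ N` and an `i ∈ s` for which `p + h + y_i` is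
a prime is `(1 ± ε) |s| N / log^2 N`; so `h + y_i` is a difference of primes `p' - p` with `p ≤ N`.

**(4)** (examples) For every prime `q` between `N^(1/3)` and `N` there is an integer `2 ≤ R ≤ log^K N` for which the quotients
`j / r` of the integers `0 ≤ j < R^2` by the primes `r ≤ R` are such a family modulo `q`; it has at most
`log^(3 K) N` members. -/
theorem result (T U : ℕ) (ε : ℝ) (hε : 0 < ε) : ∃ V C D K N₀ : ℕ, ∀ N : ℕ, N₀ ≤ N →
    (∀ (q : ℕ) [NeZero q], (N : ℝ) ^ (1 / 3 : ℝ) * Real.log N ^ C ≤ q → (q : ℝ) * Real.log N ^ D ≤ N →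
      ∀ {ι : Type} (s : Finset ι) (y : ι → ZMod q), s.Nonempty → Flat q (1 / Real.log N ^ V) s y →
      (∀ κ h : ℤ, κ ≠ 0 → |(κ : ℝ)| ≤ Real.log N ^ T → |(h : ℝ)| ≤ N * Real.log N ^ T →
        (∀ B : Finset ℕ, (∀ n ∈ B, 1 ≤ n ∧ n ≤ N ∧ 0 < n + h ∧ IsCoprime (n + h) κ) →
          (N : ℝ) / Real.log N ^ T ≤ B.card →
          |(∑ n ∈ B, W s y κ h n : ℕ) - κ.natAbs / (Nat.totient κ.natAbs : ℝ) * (B.card * s.card / Real.log N)| ≤
            ε * (κ.natAbs / (Nat.totient κ.natAbs : ℝ) * (B.card * s.card / Real.log N))) ∧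
        ∃ E : Finset ℕ, (E.card : ℝ) ≤ N / Real.log N ^ U ∧ ∀ n : ℕ, 1 ≤ n → n ≤ N → n ∉ E → 0 < n + h → IsCoprime (n + h) κ →
          |(W s y κ h n : ℝ) - κ.natAbs / (Nat.totient κ.natAbs : ℝ) * (s.card / Real.log N)| ≤
            ε * (κ.natAbs / (Nat.totient κ.natAbs : ℝ) * (s.card / Real.log N))) ∧
      ∀ h : ℤ, 0 ≤ h → (h : ℝ) ≤ N * Real.log N ^ T →
        |(∑ p ∈ (Icc 1 N).filter Nat.Prime, W s y 1 h p : ℕ) - s.card * (N / Real.log N ^ 2)| ≤
          ε * (s.card * (N / Real.log N ^ 2))) ∧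
    ∀ (q : ℕ) [Fact q.Prime], (N : ℝ) ^ (1 / 3 : ℝ) ≤ q → q ≤ N → ∃ R : ℕ, 2 ≤ R ∧ (R : ℝ) ≤ Real.log N ^ K ∧
      Flat q (1 / Real.log N ^ V) (((Icc 1 R).filter Nat.Prime) ×ˢ range (R ^ 2))
        (fun z => ((z.2 : ℕ) : ZMod q) * ((z.1 : ℕ) : ZMod q)⁻¹) := by
  classical
  obtain ⟨V₁, C₁, D₁, n₁, h1⟩ := Pool.Agent.Run7.h931.MK.pairs Pool.Agent.Run7.h931.MK.t31 T ε hε
  obtain ⟨V₂, C₂, D₂, n₂, h2⟩ := Pool.Agent.Run7.h931.MK.almost Pool.Agent.Run7.h931.MK.t31 T U ε hε
  obtain ⟨V₃, C₃, D₃, n₃, h3⟩ := Pool.Agent.Run7.h931.MK.ev T U ε hε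
  obtain ⟨K, n₄, h4⟩ := Pool.Agent.Run7.h931.MK.examples (V₁ + V₂ + V₃)
  obtain ⟨n₅, h5⟩ := Filter.eventually_atTop.1 (Pool.Agent.N384.MQ.ev_log_ge 1)
  refine ⟨V₁ + V₂ + V₃, C₁ + C₂ + C₃, D₁ + D₂ + D₃, K, n₁ + n₂ + n₃ + n₄ + n₅, fun N hN => ⟨?_, ?_⟩⟩
  · intro q _ hq1 hq2 ι s y hs hf
    have hL : 1 ≤ Real.log N := h5 N (by omega)
    have hN3 : 0 ≤ (N : ℝ) ^ (1 / 3 : ℝ) := by positivity
    have lo : ∀ C : ℕ, C ≤ C₁ + C₂ + C₃ → (N : ℝ) ^ (1 / 3 : ℝ) * Real.log N ^ C ≤ q := fun C hC =>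
      (mul_le_mul_of_nonneg_left (pow_le_pow_right₀ hL hC) hN3).trans hq1
    have hi : ∀ D : ℕ, D ≤ D₁ + D₂ + D₃ → (q : ℝ) * Real.log N ^ D ≤ N := fun D hD =>
      (mul_le_mul_of_nonneg_left (pow_le_pow_right₀ hL hD) (Nat.cast_nonneg q)).trans hq2
    have fl : ∀ V : ℕ, V ≤ V₁ + V₂ + V₃ → Pool.Agent.N384.MQ.Flat q (1 / Real.log N ^ V) s y := fun V hV =>
      Pool.Agent.Run7.h931.MK.flat_pow hL hV hf
    have key : ∀ (κ h : ℤ) (B : Finset ℕ), (∑ n ∈ B, W s y κ h n : ℕ) =
        ((B ×ˢ s).filter fun g => ((g.1 : ℤ) + (h + κ * ((y g.2).val : ℕ))).toNat.Prime).card := by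
      intro κ h B
      rw [card_filter, sum_product]
      apply sum_congr rfl
      intro n _
      unfold W
      rw [card_filter]
      apply sum_congr rfl
      intro i _
      simp only [add_assoc]
    refine ⟨fun κ h hκ hκT hhT => ⟨?_, ?_⟩, ?_⟩
    · intro B hB hBN
      have e : (κ.natAbs : ℝ) ≤ Real.log N ^ T := by rw [Nat.cast_natAbs, Int.cast_abs]; exact hκT
      have := h1 N (by omega) q (lo _ (by omega)) (hi _ (by omega)) s y hs (fl _ (by omega)) κ hκ e h hhT B hB
        (by rwa [div_le_iff₀ (by positivity)] at hBN)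
      rw [key]
      exact this
    · have e : (κ.natAbs : ℝ) ≤ Real.log N ^ T := by rw [Nat.cast_natAbs, Int.cast_abs]; exact hκT
      obtain ⟨E, hE, hE2⟩ := h2 N (by omega) q (lo _ (by omega)) (hi _ (by omega)) s y hs (fl _ (by omega)) κ hκ e h hhT
      refine ⟨E, hE, fun n hn1 hn2 hn3 hn4 hn5 => ?_⟩
      have := hE2 n hn1 hn2 hn3 hn4 hn5
      unfold W
      exact this
    · intro h h0 hh
      have := (h3 N (by omega) q (lo _ (by omega)) (hi _ (by omega)) s y hs (fl _ (by omega))).1 h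
        (by rw [abs_of_nonneg (by exact_mod_cast h0)]; exact hh) h0
      rw [key]
      simp only [one_mul]
      simp only [add_assoc] at this
      exact this
  · intro q _ hq1 hq2
    exact h4 N (by omega) q hq1 hq2

end Pool.Agent.Results.MP_678834_nt.EveryShift
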