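import Pool.Agent.Run7.h90.AU.Shift

set_option autoImplicit false

/-!
# Uniform prime pairs at the members of thin families of residues modulo a prime

Let `p` be a large prime and let `(v_i)`, `i ∈ s`, be a family of residues modulo `p` whose exponential sums
`∑ e(ξ v_i / p)`, `ξ ≠ 0`, are at most `p ^ (-ε) |s|`; the family may be very thin. Examples: the values of a sparse
polynomial of arbitrary degree on a subgroup of order `p ^ η`, the values `c_1 g_1 ^ n + ... + c_k g_k ^ n`, `n < N`,
`N ≥ p ^ η`. The theorem is about the integers `n` congruent to a member of the family modulo `p` in an interval of length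
`L ≥ p ^ (1 - δ)`. Uniformly in all
even positive integers `d ≤ p ^ A - 1`, the pairs `m - d, m` (`m = n + d`) of numbers without prime factors up to `z` have
the frequency predicted by Hardy and Littlewood, with the constant `𝔖(d)` of the problem.

Proof: bound of Bourgain, Glibichuk and Konyagin in the form for recurrences and monomials (`Agent/Run7/h823/BK9`);
equidistribution in the residue classes modulo all integers up to `p ^ δ` and the fundamental lemma of the sieve
(`Agent/Run7/h90/AU`).
-/

namespace Pool.Agent.Results.MP_678834_nt.PairsInSparseFamilies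

open Finset Filter Topology
open Pool.Agent.Run7.h90.AU (UniformFormula UniformOrders SparseSmall RecurrencesSmall)

/-- The partial products, over the primes `3 ≤ q ≤ z`, of the constant `C₂`, multiplied by
`2 ∏ (q - 1) / (q - 2)` over the odd prime divisors `q` of `d`. -/
noncomputable def partialSingularSeries (d z : ℕ) : ℝ :=
  2 * (∏ q ∈ (Icc 3 z).filter Nat.Prime, (1 - 1 / ((q : ℝ) - 1) ^ 2)) *
    ∏ q ∈ d.primeFactors.filter (fun q => 3 ≤ q), (((q : ℝ) - 1) / ((q : ℝ) - 2))

/-- `d` is even and positive. -/
def Good (d : ℕ) : Prop := 0 < d ∧ 2 ∣ d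

/-- One more than the shift. -/
def size (d : ℕ) : ℝ := (d : ℝ) + 1

/-- The numbers `m = n + d` and `m - d = n` have the property `P`. -/
def Pair (d : ℕ) (P : ℕ → Prop) (n : ℕ) : Prop := P (n + d) ∧ P n

/-- the shifts -/
def shifts (d : ℕ) : Finset ℕ := {0, d}

theorem classes_eq (d q : ℕ) (_ : q.Prime) :
    Pool.Agent.Run7.h90.AU.classes (shifts d) q = if q ∣ d then 1 else 2 := by
  unfold Pool.Agent.Run7.h90.AU.classes shifts
  rw [image_insert, image_singleton, Nat.zero_mod]
  split_ifs with h
  · rw [Nat.mod_eq_zero_of_dvd h]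
    simp
  · rw [card_insert_of_notMem, card_singleton]
    rw [mem_singleton]
    intro h1
    exact h (Nat.dvd_of_mod_eq_zero h1.symm)

theorem ok (d : ℕ) (h : Good d) : Pool.Agent.Run7.h90.AU.Admissible 2 (shifts d) := by
  obtain ⟨h1, h2⟩ := h
  refine ⟨?_, fun q hq => ?_⟩
  · unfold shifts
    rw [card_insert_of_notMem, card_singleton]
    rw [mem_singleton]
    omega
  · rw [classes_eq d q hq]
    have := hq.two_le
    split_ifs with h
    · omega
    · rcases Nat.lt_or_ge 2 q with h3 | h3
      · exact h3
      · exfalso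
        apply h
        have : q = 2 := by omega
        rw [this]
        exact h2

theorem size_le (d : ℕ) (_ : Good d) : Pool.Agent.Run7.h90.AU.height (shifts d) ≤ size d := by
  unfold Pool.Agent.Run7.h90.AU.height size shifts
  have h1 : ({0, d} : Finset ℕ).sup id ≤ d := by
    apply Finset.sup_le
    intro e he
    simp only [mem_insert, mem_singleton] at he
    simp only [id]
    omega
  have h2 : ((({0, d} : Finset ℕ).sup id : ℕ) : ℝ) ≤ d := by exact_mod_cast h1
  linarith

theorem pat (d : ℕ) (_ : Good d) (P : ℕ → Prop) (n : ℕ) (_ : 1 ≤ n) :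
    Pool.Agent.Run7.h90.AU.Shifts (shifts d) P n ↔ Pair d P n := by
  unfold Pool.Agent.Run7.h90.AU.Shifts Pair shifts
  simp only [mem_insert, mem_singleton, forall_eq_or_imp, forall_eq, add_zero]
  tauto

theorem con (d : ℕ) (h : Good d) :
    Pool.Agent.Run7.h90.AU.singularSeries 2 (shifts d) =ᶠ[atTop] partialSingularSeries d := by
  filter_upwards [eventually_ge_atTop (d + 2)] with z hz
  unfold Pool.Agent.Run7.h90.AU.singularSeries partialSingularSeries
  have e : (range (z + 1)).filter Nat.Prime = insert 2 ((Icc 3 z).filter Nat.Prime) := by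
    ext l
    simp only [mem_filter, mem_range, mem_insert, mem_Icc]
    constructor
    · rintro ⟨h3, h4⟩
      have := h4.two_le
      rcases Nat.lt_or_ge 2 l with h5 | h5
      · exact Or.inr ⟨⟨by omega, by omega⟩, h4⟩
      · exact Or.inl (by omega)
    · rintro (rfl | ⟨⟨h3, h4⟩, h5⟩)
      · exact ⟨by omega, Nat.prime_two⟩
      · exact ⟨by omega, h5⟩
  have hset : d.primeFactors.filter (fun q => 3 ≤ q) = ((Icc 3 z).filter Nat.Prime).filter (fun q => q ∣ d) := by
    ext l
    simp only [mem_filter, Nat.mem_primeFactors, mem_Icc]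
    constructor
    · rintro ⟨⟨h3, h4, h5⟩, h6⟩
      have := Nat.le_of_dvd h.1 h4
      exact ⟨⟨⟨h6, by omega⟩, h3⟩, h4⟩
    · rintro ⟨⟨⟨h3, h4⟩, h5⟩, h6⟩
      exact ⟨⟨h5, h6, by have := h.1; omega⟩, h3⟩
  rw [e, prod_insert (by simp), classes_eq d 2 Nat.prime_two, if_pos h.2, hset,
    prod_filter (fun q => q ∣ d), mul_assoc, ← prod_mul_distrib]
  congr 1
  · norm_num
  · refine prod_congr rfl fun q hq => ?_
    rw [mem_filter, mem_Icc] at hq
    rw [classes_eq d q hq.2]
    have h3 : (3 : ℝ) ≤ q := by exact_mod_cast hq.1.1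
    have h4 : (q : ℝ) ≠ 0 := by linarith
    have h5 : (q : ℝ) - 1 ≠ 0 := by linarith
    have h6 : (q : ℝ) - 2 ≠ 0 := by linarith
    have e1 : (1 : ℝ) - 1 / q = (q - 1) / q := by field_simp
    have e2 : (1 : ℝ) - 1 / ((q : ℝ) - 1) ^ 2 = q * (q - 2) / ((q : ℝ) - 1) ^ 2 := by
      field_simp
      ring
    rw [e2, e1]
    split_ifs with h7
    · push_cast
      rw [e1]
      field_simp
    · push_cast
      field_simp

theorem result : UniformFormula 2 Pair partialSingularSeries size Good ∧
    UniformOrders 2 Pair partialSingularSeries size Good ∧ SparseSmall ∧ RecurrencesSmall :=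
  ⟨(Pool.Agent.Run7.h90.AU.shiftPat 2).formula.comap shifts ok size_le pat con,
    (Pool.Agent.Run7.h90.AU.shiftPat 2).orders.comap shifts ok size_le pat con,
    Pool.Agent.Run7.h90.AU.sparse_small, Pool.Agent.Run7.h90.AU.rec_small⟩

end Pool.Agent.Results.MP_678834_nt.PairsInSparseFamilies
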