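import Pool.Agent.Run7.h673.SP.Mk3
import Pool.Agent.H560R3.GB.Defs

/-!
# Prime pairs with differences near the values of functions of superpolynomial growth, in short ranges

For almost all `n` in a short range `(y, x]` the number of the pairs of primes with the difference `d` is the predicted one,
with errors of the size `N / log ^ C N`, for ALL even integers `d` slightly above `D = c₀ + κ ⌊exp (φ (log n))⌋ ≤ N / log ^ E N`,
for instance `φ y = γ y ^ β` with `1 < β < 3 / 2`; `exp (φ (log y))` may be as small as `N ^ (1 / 3) log ^ E N`.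

Definitions used (starting file `Pool.Agent.H560R3.GB.Defs`): `C₂`: the twin prime constant
`∏_{p > 2} (1 - 1 / (p - 1) ^ 2)`. From Mathlib: `ContDiffAt ℝ ⊤`: infinitely differentiable at a point;
`iteratedDeriv m f`: the derivative of order `m`; `⌊y⌋₊`: the integer part of `y`, and `0` for `y < 0`.

Method: the exponential sums over the integer parts of `exp (φ (log n))`, `y < n ≤ x`, are small at all frequencies with a
distance of at least `log ^ A / exp (φ (log y))` from the integers (Vinogradov's method of bilinear exponential sums with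
the mean value theorem in the form of a starting file; files `Pool.Agent.Run7.h673.SP`). By project MK of this run (helper794,
helper27 and others) the von Mangoldt function minus a sieve model has small mean squares over ALL short arcs of length
`N ^ (-1/3) log ^ (-C) N`, and so only such short arcs around the integers matter for the correlations at almost all of
these shifts; the passage to pairs in residue classes is from the starting files (`Pool.Agent.W93.PP`).
-/

set_option autoImplicit false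

namespace Pool.Agent.Results.MP_678834_nt.SuperpolynomialShortRanges

open Finset Pool.Agent.H560R3.GB

/-- The conditions on `φ` for the growth of `f t = exp (φ (log t))`: for some `δ > 0`, `K` and `L₀` and all `y > L₀` the
function `φ` is infinitely differentiable at `y`, `φ y > 0`, `(1 + δ) φ y ≤ y φ' y`, `φ y ≤ y ^ (3 / 2 - δ)`, and
`|φ⁽ᵐ⁾ y| ≤ m! φ y (K / y) ^ m` for all `m ≥ 1`. -/
def Rapid (φ : ℝ → ℝ) : Prop :=
  ∃ δ K L₀ : ℝ, 0 < δ ∧ ∀ y > L₀, ContDiffAt ℝ ((⊤ : ℕ∞) : WithTop ℕ∞) φ y ∧ 0 < φ y ∧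
    (1 + δ) * φ y ≤ y * deriv φ y ∧ φ y ≤ y ^ (3 / 2 - δ) ∧
    ∀ m : ℕ, 1 ≤ m → |iteratedDeriv m φ y| ≤ m.factorial * φ y * (K / y) ^ m

/-- `(y, x]` is a range of length at least `x / log ^ a N` in which `f t = exp (φ (log t))` has values between
`N ^ (1/3) log ^ E N` and `B N`: `y < x`, `x ≤ log ^ a N (x - y)`, `N ^ (1/3) log ^ E N ≤ f y` and `f x ≤ B N`. -/
def Range (φ : ℝ → ℝ) (a E B N x y : ℕ) : Prop :=
  y < x ∧ (x : ℝ) ≤ Real.log N ^ a * ((x : ℝ) - y) ∧
    (N : ℝ) ^ (1 / 3 : ℝ) * Real.log N ^ E ≤ Real.exp (φ (Real.log y)) ∧ Real.exp (φ (Real.log x)) ≤ B * N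

/-- The number `π₂(x, d)` of the primes `p ≤ x` for which `p - d` is a prime. -/
def pi2 (x d : ℕ) : ℕ := ((Icc 1 x).filter fun p => p.Prime ∧ d ≤ p ∧ (p - d).Prime).card

/-- The number of the primes `p ≤ x` for which `p - d` is a prime `≡ α (mod q)`. -/
def pairs (x d α q : ℕ) : ℕ := ((Icc 1 x).filter fun p => p.Prime ∧ d ≤ p ∧ (p - d).Prime ∧ p - d ≡ α [MOD q]).card

/-- The constant of Hardy and Littlewood for even `d > 0`: `2 C₂ ∏_{p ∣ d, p > 2} (p - 1) / (p - 2)`. -/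
noncomputable def S (d : ℕ) : ℝ := 2 * C₂ * ∏ p ∈ d.primeFactors.filter (fun p => 2 < p), ((p : ℝ) - 1) / ((p : ℝ) - 2)

/-- For all even `d > 0` with `D ≤ d ≤ D + log ^ A₁ N`: for all `2 ≤ x ≤ N`, all the moduli `1 ≤ q ≤ log ^ A₂ N` and all the
residue classes `α` modulo `q` for which `α` and `α + d` are prime to `q`, the number of the primes `p ≤ x` with `p - d` a
prime `≡ α (mod q)` is `S d ∫_2^x dt / log ^ 2 t`, divided by the number of such residue classes, up to an error of at most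
`N / log ^ C N`; and for `N / log ^ A₁ N ≤ x ≤ N` the quotient of `π₂(x, d)` and `S d x / log ^ 2 x` differs from `1` by at
most `7 / log x`. -/
def Holds (A₁ A₂ C N D : ℕ) : Prop :=
  ∀ d : ℕ, D ≤ d → (d : ℝ) ≤ D + Real.log N ^ A₁ → 0 < d → Even d →
    (∀ q α x : ℕ, 1 ≤ q → (q : ℝ) ≤ Real.log N ^ A₂ → Nat.Coprime α q → Nat.Coprime (α + d) q → 2 ≤ x → x ≤ N →
      |(pairs x d α q : ℝ) - S d * (∫ t in (2 : ℝ)..x, 1 / Real.log t ^ 2) /
        (((range q).filter (fun β => Nat.Coprime β q ∧ Nat.Coprime (β + d) q)).card : ℝ)| ≤ N / Real.log N ^ C) ∧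
    ∀ x : ℕ, (N : ℝ) / Real.log N ^ A₁ ≤ x → x ≤ N →
      |(pi2 x d : ℝ) * Real.log x ^ 2 / (S d * x) - 1| ≤ 7 / Real.log x

lemma large_log (C : ℝ) : ∃ N₀ : ℕ, ∀ N : ℕ, N₀ ≤ N → C ≤ Real.log N :=
  Filter.eventually_atTop.mp
    ((Real.tendsto_log_atTop.comp (tendsto_natCast_atTop_atTop (R := ℝ))).eventually_ge_atTop C)

lemma intg (u v : ℝ) (hu : 2 ≤ u) (hv : 2 ≤ v) :
    IntervalIntegrable (fun t : ℝ => 1 / Real.log t ^ 2) MeasureTheory.volume u v := by
  apply AntitoneOn.intervalIntegrable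
  refine Pool.Agent.W93.PP.anti.mono fun t ht => ?_
  rw [Set.mem_Ici]
  exact le_trans (le_inf hu hv) ht.1

lemma li_ge (X : ℝ) (hX2 : 2 ≤ X) : (X - 2) / Real.log X ^ 2 ≤ Pool.Agent.W93.PP.Li2 X := by
  unfold Pool.Agent.W93.PP.Li2
  have h1 : ∫ _t in (2 : ℝ)..X, (1 / Real.log X ^ 2 : ℝ) ≤ ∫ t in (2 : ℝ)..X, 1 / Real.log t ^ 2 := by
    apply intervalIntegral.integral_mono_on hX2 intervalIntegrable_const (intg 2 X le_rfl hX2)
    intro t ht
    exact Pool.Agent.W93.PP.anti ht.1 (by exact hX2) ht.2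
  rw [intervalIntegral.integral_const, smul_eq_mul] at h1
  refine le_trans (le_of_eq ?_) h1
  ring

/-- the main term is `x / log ^ 2 x (1 + O (1 / log x))` -/
lemma li_near : ∃ X₀ : ℝ, ∀ X : ℝ, X₀ ≤ X → |Pool.Agent.W93.PP.Li2 X - X / Real.log X ^ 2| ≤ 6 * (X / Real.log X ^ 3) := by
  obtain ⟨u, hu⟩ : ∃ u, u = Real.exp 5 := ⟨_, rfl⟩
  have hu2 : 2 ≤ u := by
    rw [hu]
    linarith [Real.add_one_le_exp (5 : ℝ)]
  have hlu : Real.log u = 5 := by rw [hu, Real.log_exp]
  -- the comparison with the function `G`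
  have hG : ∀ X : ℝ, u ≤ X → ∫ t in u..X, 1 / Real.log t ^ 2 ≤ X / Real.log X ^ 2 + 5 * (X / Real.log X ^ 3) := by
    intro X hX
    have hder : ∀ t ∈ Set.uIcc u X, HasDerivAt (fun t : ℝ => t / Real.log t ^ 2 + 5 * (t / Real.log t ^ 3))
        (1 / Real.log t ^ 2 + (3 / Real.log t ^ 3 - 15 / Real.log t ^ 4)) t := by
      intro t ht
      rw [Set.uIcc_of_le hX] at ht
      have ht0 : 0 < t := by linarith [ht.1]
      have hl : 5 ≤ Real.log t := by rw [← hlu]; exact Real.log_le_log (by linarith) ht.1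
      have hl0 : Real.log t ≠ 0 := by
        intro h
        linarith
      have hlg : HasDerivAt Real.log t⁻¹ t := Real.hasDerivAt_log ht0.ne'
      have hid : HasDerivAt (fun t : ℝ => t) 1 t := hasDerivAt_id t
      have hl2 : HasDerivAt (fun t : ℝ => Real.log t ^ 2) (2 * Real.log t * t⁻¹) t := by
        have := hlg.fun_pow 2
        refine this.congr_deriv ?_
        norm_num
      have hl3 : HasDerivAt (fun t : ℝ => Real.log t ^ 3) (3 * Real.log t ^ 2 * t⁻¹) t := by
        have := hlg.fun_pow 3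
        refine this.congr_deriv ?_
        norm_num
      have h1 := hid.fun_div hl2 (pow_ne_zero 2 hl0)
      have h2 := (hid.fun_div hl3 (pow_ne_zero 3 hl0)).const_mul 5
      have h3 := h1.fun_add h2
      refine h3.congr_deriv ?_
      field_simp
      ring
    have hcont : ContinuousOn (fun t : ℝ => 1 / Real.log t ^ 2 + (3 / Real.log t ^ 3 - 15 / Real.log t ^ 4)) (Set.uIcc u X) := by
      intro t ht
      rw [Set.uIcc_of_le hX] at ht
      have ht0 : 0 < t := by linarith [ht.1]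
      have hl : 5 ≤ Real.log t := by rw [← hlu]; exact Real.log_le_log (by linarith) ht.1
      have hl0 : Real.log t ≠ 0 := by
        intro h
        linarith
      apply ContinuousAt.continuousWithinAt
      have hc : ContinuousAt Real.log t := Real.continuousAt_log ht0.ne'
      exact (continuousAt_const.div (hc.pow 2) (pow_ne_zero 2 hl0)).add
        ((continuousAt_const.div (hc.pow 3) (pow_ne_zero 3 hl0)).sub
          (continuousAt_const.div (hc.pow 4) (pow_ne_zero 4 hl0)))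
    have h1 := intervalIntegral.integral_eq_sub_of_hasDerivAt hder hcont.intervalIntegrable
    have h2 : ∫ t in u..X, 1 / Real.log t ^ 2 ≤
        ∫ t in u..X, (1 / Real.log t ^ 2 + (3 / Real.log t ^ 3 - 15 / Real.log t ^ 4)) := by
      apply intervalIntegral.integral_mono_on hX (intg u X hu2 (hu2.trans hX)) hcont.intervalIntegrable
      intro t ht
      have hl : 5 ≤ Real.log t := by rw [← hlu]; exact Real.log_le_log (by linarith) ht.1
      have h3 : 15 / Real.log t ^ 4 ≤ 3 / Real.log t ^ 3 := by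
        rw [div_le_div_iff₀ (by positivity) (by positivity)]
        have h4 : 0 < Real.log t ^ 3 := by positivity
        calc 15 * Real.log t ^ 3 ≤ (3 * Real.log t) * Real.log t ^ 3 := by
              apply mul_le_mul_of_nonneg_right _ h4.le
              linarith
          _ = 3 * Real.log t ^ 4 := by ring
      linarith
    rw [h1] at h2
    have h5 : 0 ≤ u / Real.log u ^ 2 + 5 * (u / Real.log u ^ 3) := by
      rw [hlu]
      positivity
    linarith
  obtain ⟨K, hK⟩ : ∃ K, K = |∫ t in (2 : ℝ)..u, 1 / Real.log t ^ 2| := ⟨_, rfl⟩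
  have hK0 : 0 ≤ K := by rw [hK]; exact abs_nonneg _
  -- large X
  have hlim : ∀ᶠ X : ℝ in Filter.atTop, Real.log X ^ 3 * (K + 2) ≤ X := by
    have h1 := (isLittleO_log_rpow_atTop (show (0 : ℝ) < 1 / 3 by norm_num)).bound (show (0 : ℝ) < 1 / (K + 2) by positivity)
    filter_upwards [h1, Filter.eventually_ge_atTop (Real.exp 1)] with X h2 h3
    have hX0 : 0 < X := lt_of_lt_of_le (Real.exp_pos 1) h3
    have hl1 : 1 ≤ Real.log X := by rwa [Real.le_log_iff_exp_le hX0]
    rw [Real.norm_of_nonneg (by linarith), Real.norm_of_nonneg (by positivity)] at h2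
    have h4 : Real.log X ^ 3 ≤ (1 / (K + 2) * X ^ (1 / 3 : ℝ)) ^ 3 := pow_le_pow_left₀ (by linarith) h2 3
    have h5 : (X ^ (1 / 3 : ℝ)) ^ 3 = X := by
      rw [← Real.rpow_natCast, ← Real.rpow_mul hX0.le]
      norm_num
    rw [mul_pow, h5] at h4
    have h6 : (1 / (K + 2)) ^ 3 * (K + 2) ≤ 1 := by
      have h7 : (1 / (K + 2)) ^ 3 * (K + 2) = (1 / (K + 2)) ^ 2 := by field_simp
      rw [h7]
      apply pow_le_one₀ (by positivity)
      rw [div_le_one (by linarith)]
      linarith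
    calc Real.log X ^ 3 * (K + 2) ≤ (1 / (K + 2)) ^ 3 * X * (K + 2) := mul_le_mul_of_nonneg_right h4 (by linarith)
      _ = ((1 / (K + 2)) ^ 3 * (K + 2)) * X := by ring
      _ ≤ 1 * X := mul_le_mul_of_nonneg_right h6 hX0.le
      _ = X := one_mul X
  obtain ⟨X₁, hX₁⟩ := Filter.eventually_atTop.1 hlim
  refine ⟨max X₁ u, fun X hX => ?_⟩
  have h1 := hX₁ X ((le_max_left _ _).trans hX)
  have hXu : u ≤ X := (le_max_right _ _).trans hX
  have h2 := hG X hXu
  have hX2 : 2 ≤ X := hu2.trans hXu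
  have hX0 : 0 < X := by linarith
  have hl : 5 ≤ Real.log X := by rw [← hlu]; exact Real.log_le_log (by linarith) hXu
  have h3 := li_ge X hX2
  have h4 : Pool.Agent.W93.PP.Li2 X = (∫ t in (2 : ℝ)..u, 1 / Real.log t ^ 2) + ∫ t in u..X, 1 / Real.log t ^ 2 := by
    unfold Pool.Agent.W93.PP.Li2
    rw [intervalIntegral.integral_add_adjacent_intervals (intg 2 u le_rfl hu2) (intg u X hu2 hX2)]
  have h5 : (∫ t in (2 : ℝ)..u, 1 / Real.log t ^ 2) ≤ K := by rw [hK]; exact le_abs_self _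
  have h6 : K + 2 ≤ X / Real.log X ^ 3 := by
    rw [le_div_iff₀ (by positivity)]
    linarith
  have h7 : 2 / Real.log X ^ 2 ≤ 2 := by
    rw [div_le_iff₀ (by positivity)]
    nlinarith
  have h8 : (X - 2) / Real.log X ^ 2 = X / Real.log X ^ 2 - 2 / Real.log X ^ 2 := by ring
  rw [abs_le]
  constructor
  · rw [h8] at h3
    linarith
  · rw [h4]
    linarith

lemma holds_of (A B C : ℕ) : ∃ X₀ : ℕ, ∀ X : ℕ, X₀ ≤ X → ∀ D : ℕ, Pool.Agent.W93.PP.GoodD A B (C + A + 4) X D →
    Holds A B C X D := by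
  obtain ⟨X₀, hX₀⟩ := large_log 40
  obtain ⟨X₁, hX₁⟩ := li_near
  obtain ⟨X₂, hX₂⟩ := Filter.eventually_atTop.1 ((tendsto_natCast_atTop_atTop (R := ℝ)).eventually
      (Pool.Agent.N193.PS.log_pow_ev A 1 (1 / 2) (by norm_num) (by norm_num)))
  obtain ⟨X₃, hX₃⟩ := exists_nat_ge ((|X₁| + 2) ^ 2)
  refine ⟨X₀ + X₂ + X₃ + 8, fun X hX D hgood => ?_⟩
  have hL := hX₀ X (by omega)
  have hbig := hX₂ X (by omega)
  obtain ⟨L, hLd⟩ : ∃ L, L = Real.log (X : ℝ) := ⟨_, rfl⟩
  rw [← hLd] at hL hbig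
  have hL0 : 0 < L := by linarith
  have hX0 : (0 : ℝ) < X := by exact_mod_cast (by omega : 0 < X)
  have hX8 : (8 : ℝ) ≤ X := by exact_mod_cast (by omega : 8 ≤ X)
  intro d hd1 hd2 hd0 hdev
  rw [← hLd] at hd2
  obtain ⟨δ, hδ⟩ := Nat.exists_eq_add_of_le hd1
  have hδL : (δ : ℝ) ≤ L ^ A := by
    rw [hδ] at hd2
    push_cast at hd2
    linarith
  have hSd : S d = sing d := rfl
  have hpc : ∀ x α q : ℕ, Pool.Agent.W93.PP.pc d (x : ℝ) α q = pairs x d α q := by
    intro x α q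
    unfold Pool.Agent.W93.PP.pc pairs
    rw [Nat.floor_natCast]
    refine card_nbij' (fun p => p + d) (fun p => p - d) ?_ ?_ ?_ ?_
    · intro p hp
      rw [mem_coe, mem_filter, mem_range] at hp
      rw [mem_coe, mem_filter, mem_Icc]
      obtain ⟨_, h2, h3, h4, h5⟩ := hp
      have h4' : p + d ≤ x := by exact_mod_cast h4
      exact ⟨⟨h3.one_lt.le, h4'⟩, h3, Nat.le_add_left d p, by rwa [Nat.add_sub_cancel], by rwa [Nat.add_sub_cancel]⟩
    · intro p hp
      rw [mem_coe, mem_filter, mem_Icc] at hp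
      rw [mem_coe, mem_filter, mem_range]
      obtain ⟨⟨_, h1⟩, h2, h3, h4, h5⟩ := hp
      have h6 : p - d < x + 1 := by omega
      refine ⟨h6, h4, by rwa [Nat.sub_add_cancel h3], ?_, h5⟩
      have : (p - d) + d ≤ x := by omega
      exact_mod_cast this
    · intro p hp
      simp
    · intro p hp
      rw [mem_coe, mem_filter] at hp
      exact Nat.sub_add_cancel hp.2.2.1
  have hpi : ∀ x : ℕ, pairs x d 0 1 = pi2 x d := by
    intro x
    unfold pairs pi2
    congr 1
    ext p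
    simp only [mem_filter, Nat.modEq_one, and_true]
  have hg : ∀ q α : ℕ, 1 ≤ q → (q : ℝ) ≤ L ^ B → Nat.Coprime α q → Nat.Coprime (α + d) q → ∀ x : ℕ, 2 ≤ x → x ≤ X →
      |(pairs x d α q : ℝ) - S d / Pool.Agent.W93.PP.Cnt q d * Pool.Agent.W93.PP.Li2 x| ≤ X / L ^ (C + A + 4) := by
    intro q α hq1 hq2 h1 h2 x hx1 hx2
    have h3 := hgood δ q α (by rw [← hLd]; exact hδL) hq1 (by rw [← hLd]; exact hq2) h1 (by rw [← hδ]; exact h2)
      (by rw [← hδ]; exact hdev.two_dvd) (by rw [← hδ]; omega) x (by exact_mod_cast hx1) (by exact_mod_cast hx2)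
    rw [← hδ, ← hLd, hpc] at h3
    exact h3
  refine ⟨fun q α x hq1 hq2 hα1 hα2 hx2 hx => ?_, fun x hx1 hx2 => ?_⟩
  · rw [← hLd] at hq2 ⊢
    refine le_trans (le_of_eq ?_) ((hg q α hq1 hq2 hα1 hα2 x hx2 hx).trans ?_)
    · unfold Pool.Agent.W93.PP.Cnt Pool.Agent.W93.PP.Li2
      congr 1
      ring
    · apply div_le_div_of_nonneg_left hX0.le (by positivity)
      exact pow_le_pow_right₀ (by linarith) (by omega)
  · rw [← hLd] at hx1
    -- the size of `x`
    have hxx : (X : ℝ) ^ (1 / 2 : ℝ) ≤ x := by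
      refine le_trans ?_ hx1
      rw [le_div_iff₀ (by positivity)]
      have hbig' : L ^ A ≤ (X : ℝ) ^ (1 / 2 : ℝ) := by
        refine le_trans ?_ hbig
        rw [one_mul]
        exact pow_le_pow_left₀ hL0.le (by linarith) A
      have h1 : (X : ℝ) ^ (1 / 2 : ℝ) * (X : ℝ) ^ (1 / 2 : ℝ) = X := by
        rw [← Real.rpow_add hX0]
        norm_num
      calc (X : ℝ) ^ (1 / 2 : ℝ) * L ^ A ≤ (X : ℝ) ^ (1 / 2 : ℝ) * (X : ℝ) ^ (1 / 2 : ℝ) :=
            mul_le_mul_of_nonneg_left hbig' (by positivity)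
        _ = X := h1
    have hsq : |X₁| + 2 ≤ (X : ℝ) ^ (1 / 2 : ℝ) := by
      rw [← Real.sqrt_eq_rpow]
      apply Real.le_sqrt_of_sq_le
      refine hX₃.trans ?_
      exact_mod_cast (by omega : X₃ ≤ X)
    have hx2' : (2 : ℝ) ≤ x := by linarith [abs_nonneg X₁]
    have hxX1 : X₁ ≤ x := by linarith [le_abs_self X₁]
    have hx0 : (0 : ℝ) < x := by linarith
    have hlx : L / 2 ≤ Real.log x := by
      have h1 := Real.log_le_log (by positivity) hxx
      rw [Real.log_rpow hX0, ← hLd] at h1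
      linarith
    have hlx0 : 20 ≤ Real.log x := by linarith
    have hlxL : Real.log x ≤ L := by
      rw [hLd]
      exact Real.log_le_log hx0 (by exact_mod_cast hx2)
    have h1 := hg 1 0 le_rfl (by rw [Nat.cast_one]; exact one_le_pow₀ (by linarith)) (Nat.coprime_one_right 0)
      (Nat.coprime_one_right _) x (by exact_mod_cast hx2') hx2
    have hC1 : (Pool.Agent.W93.PP.Cnt 1 d : ℝ) = 1 := by
      unfold Pool.Agent.W93.PP.Cnt
      simp
    rw [hC1, div_one, hpi] at h1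
    have h2 := hX₁ x hxX1
    have h3 : 1 ≤ S d := by rw [hSd]; exact Pool.Agent.W93.GB.one_le_sing d
    have hS0 : 0 < S d := by linarith
    -- the error term
    have h4 : (X : ℝ) / L ^ (C + A + 4) ≤ x / Real.log x ^ 3 := by
      have h5 : (X : ℝ) / L ^ A ≤ x := hx1
      have h6 : (X : ℝ) / L ^ (C + A + 4) = (X / L ^ A) / L ^ (C + 4) := by
        rw [div_div, ← pow_add]
        congr 2
        ring
      rw [h6]
      calc (X : ℝ) / L ^ A / L ^ (C + 4) ≤ x / L ^ (C + 4) := div_le_div_of_nonneg_right h5 (by positivity)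
        _ ≤ x / L ^ 3 := by
            apply div_le_div_of_nonneg_left hx0.le (by positivity)
            exact pow_le_pow_right₀ (by linarith) (by omega)
        _ ≤ x / Real.log x ^ 3 := by
            apply div_le_div_of_nonneg_left hx0.le (by positivity)
            exact pow_le_pow_left₀ (by linarith) hlxL 3
    have h7 : |(pi2 x d : ℝ) - S d * (x / Real.log x ^ 2)| ≤ 7 * (S d * (x / Real.log x ^ 3)) := by
      have h8 : |S d * (Pool.Agent.W93.PP.Li2 x - x / Real.log x ^ 2)| ≤ S d * (6 * (x / Real.log x ^ 3)) := by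
        rw [abs_mul, abs_of_pos hS0]
        exact mul_le_mul_of_nonneg_left h2 hS0.le
      have h9 : (pi2 x d : ℝ) - S d * (x / Real.log x ^ 2) = ((pi2 x d : ℝ) - S d * Pool.Agent.W93.PP.Li2 x) +
          S d * (Pool.Agent.W93.PP.Li2 x - x / Real.log x ^ 2) := by ring
      rw [h9]
      refine (abs_add_le _ _).trans ((add_le_add (h1.trans h4) h8).trans ?_)
      have h10 : 0 < (x : ℝ) / Real.log x ^ 3 := by positivity
      nlinarith
    have h11 : (pi2 x d : ℝ) * Real.log x ^ 2 / (S d * x) - 1 =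
        ((pi2 x d : ℝ) - S d * (x / Real.log x ^ 2)) * (Real.log x ^ 2 / (S d * x)) := by
      field_simp
    rw [h11, abs_mul, abs_of_pos (show 0 < Real.log x ^ 2 / (S d * x) by positivity)]
    calc |(pi2 x d : ℝ) - S d * (x / Real.log x ^ 2)| * (Real.log x ^ 2 / (S d * x)) ≤
        7 * (S d * (x / Real.log x ^ 3)) * (Real.log x ^ 2 / (S d * x)) := mul_le_mul_of_nonneg_right h7 (by positivity)
      _ = 7 / Real.log x := by field_simp

open Classical in
/-- **(1)** Let `φ` satisfy the conditions `Rapid` and let `κ ≠ 0`, `A₁`, `A₂`, `B`, `C`, `U`, `a` be fixed. There is `E` such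
that for all large `N`, all ranges `(y, x]` (`Range`: the values `exp (φ (log n))` are between `N ^ (1/3) log ^ E N` and
`B N`, and `x - y ≥ x / log ^ a N`) and all integers `|c₀| ≤ B N` all the integers `y < n ≤ x`, with at most
`(x - y) / log ^ U N` exceptions, have the following property: if `D = c₀ + κ ⌊exp (φ (log n))⌋` satisfies
`0 ≤ D ≤ N / log ^ E N`, then for ALL even `d > 0` with `D ≤ d ≤ D + log ^ A₁ N`: for all `2 ≤ z ≤ N`, all the moduli
`1 ≤ q ≤ log ^ A₂ N` and all the residue classes `α` modulo `q` for which `α` and `α + d` are prime to `q`, the number of the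
primes `p ≤ z` with `p - d` a prime `≡ α (mod q)` is the predicted one up to an error of at most `N / log ^ C N`; and for
`N / log ^ A₁ N ≤ z ≤ N` the ratio of `π₂(z, d)` to `S(d) z (log z) ^ (-2)` differs from `1` by at most `7 / log z`.

**(2)** Let `φ` satisfy the conditions `Rapid`, `η > 0`, `E`, `B`. For all large `N` and all `X` with
`N ^ (1/3 + η) ≤ exp (φ (log X)) ≤ B N` the interval `(⌊X / 2⌋, X]` is a range (`a = 1`).

**(3)** The functions `φ y = γ y ^ β` with `γ > 0` and `1 < β < 3 / 2` satisfy the conditions `Rapid`. -/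
theorem result :
    (∀ φ : ℝ → ℝ, Rapid φ → ∀ κ : ℤ, κ ≠ 0 → ∀ A₁ A₂ B C U a : ℕ, ∃ E N₀ : ℕ, ∀ N : ℕ, N₀ ≤ N →
      ∀ x y : ℕ, Range φ a E B N x y → ∀ c₀ : ℤ, |c₀| ≤ B * N →
        (((Ioc y x).filter fun n : ℕ => ¬ ∀ D : ℕ, (D : ℤ) = c₀ + κ * (⌊Real.exp (φ (Real.log n))⌋₊ : ℕ) →
          (D : ℝ) ≤ N / Real.log N ^ E → Holds A₁ A₂ C N D).card : ℝ) ≤ ((x : ℝ) - y) / Real.log N ^ U) ∧
    (∀ φ : ℝ → ℝ, Rapid φ → ∀ η : ℝ, 0 < η → ∀ E B : ℕ, ∃ N₀ : ℕ, ∀ N : ℕ, N₀ ≤ N → ∀ X : ℕ,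
      (N : ℝ) ^ (1 / 3 + η) ≤ Real.exp (φ (Real.log X)) → Real.exp (φ (Real.log X)) ≤ B * N → Range φ 1 E B N X (X / 2)) ∧
    (∀ γ β : ℝ, 0 < γ → 1 < β → β < 3 / 2 → Rapid (fun y => γ * y ^ β)) := by
  refine ⟨fun φ hφ κ hκ A₁ A₂ B C U a => ?_, fun φ hφ η hη C B => ?_,
    fun γ β h1 h2 h3 => Pool.Agent.Run7.h673.SP.rapid_pow γ β h1 h2 h3⟩
  · have hφ' : Pool.Agent.Run7.h673.SP.Rapid φ := hφ
    obtain ⟨δ, C', L₀, hf⟩ := hφ'.fast
    obtain ⟨R, hR⟩ := Pool.Agent.Run7.h27.MK.pairs_gen κ B A₁ A₂ (C + A₁ + 4) U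
    obtain ⟨E₁, hz⟩ := hf.rg_z a κ hκ (B + 1) B R
    obtain ⟨N₁, h1⟩ := hR _ hz
    obtain ⟨N₂, h2⟩ := holds_of A₁ A₂ C
    obtain ⟨N₃, h3⟩ := large_log 2
    refine ⟨E₁ + (C + A₁ + 4 + 5), N₁ + N₂ + N₃ + 3, fun N hN x y hI c₀ hc₀ => ?_⟩
    have hL := h3 N (by omega)
    obtain ⟨e1, e2, e3, e4⟩ := hI
    have hrg : Pool.Agent.Run7.h673.SP.Rgs φ a (E₁ + (C + A₁ + 4 + 5)) B N x y := by
      refine ⟨e1, ?_, e3, e4⟩
      rw [Nat.cast_sub e1.le]
      exact e2
    have h4 := h1 N (by omega) (Ioc y x) (Pool.Agent.Run7.h673.SP.val φ) ((Ioc y x).image (Pool.Agent.Run7.h673.SP.val φ))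
      (Pool.Agent.Run7.h673.SP.dis φ x y) ⟨x, y, hrg.mono (by linarith) (by omega), rfl, rfl⟩
      (Pool.Agent.Run7.h673.SP.rep_dis' φ e1) c₀ hc₀
    rw [Nat.card_Ioc, Nat.cast_sub e1.le] at h4
    refine le_trans ?_ h4
    apply Nat.cast_le.2
    apply card_le_card
    intro n hn
    rw [mem_filter] at hn ⊢
    refine ⟨hn.1, fun hcon => hn.2 fun D hD hD2 => h2 N (by omega) D (hcon D hD (hD2.trans ?_))⟩
    have hN0 : (0 : ℝ) ≤ N := Nat.cast_nonneg _
    apply div_le_div_of_nonneg_left hN0 (by positivity)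
    exact pow_le_pow_right₀ (by linarith) (by omega)
  · have hφ' : Pool.Agent.Run7.h673.SP.Rapid φ := hφ
    obtain ⟨δ, C', L₀, hf⟩ := hφ'.fast
    obtain ⟨N₀, h0⟩ := hf.half η hη C B
    refine ⟨N₀, fun N hN X h1 h2 => ?_⟩
    obtain ⟨e1, e2, e3, e4⟩ := h0 N hN X h1 h2
    refine ⟨e1, ?_, e3, e4⟩
    rw [Nat.cast_sub e1.le] at e2
    exact e2

end Pool.Agent.Results.MP_678834_nt.SuperpolynomialShortRanges
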